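import Mathlib
import Pool.Agent.H27.SignRot

open Pool.Agent.H27.SignRot

theorem Pool.Agent.Results.MP_fc1ccb_an.Period60.result :
    ∃ (α : ℝ) (z : ℕ → ℂ) (ε : ℕ → ℤ), Irrational α ∧ 0 < α ∧
      (∀ n, ε n = 1 ∨ ε n = -1) ∧
      (∀ n : ℕ, z (n + 1) = z n + ε n * Complex.exp (2 * Real.pi * Complex.I * α * n)) ∧
      (∀ n : ℕ, ‖z n + ε n * Complex.exp (2 * Real.pi * Complex.I * α * n)‖ <
        ‖z n - ε n * Complex.exp (2 * Real.pi * Complex.I * α * n)‖) ∧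
      IsLeast {p : ℕ | 1 ≤ p ∧ ∃ N, ∀ n ≥ N, ε (n + p) = ε n} 60 :=
  ⟨al, z, fun n => sg (U n), al_irr, al_pos, fun _ => sg_pm _,
    fun n => by rw [om_pow]; exact z_succ n, fun n => by rw [om_pow]; exact z_lt n, least⟩
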